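import Pool.Agent.K1H73.SQB.Stm3
import Pool.Agent.K1H11.SQB.Spl2

set_option autoImplicit false

/-!
# Project SQB, part 3: the large primes
-/

namespace Pool.Agent.K1H13.SQB

open Finset Pool.Agent.Y862.SQ Pool.Agent.K1H73.SQB
open Pool.Agent.K1H11.SQB (mem_pr' pr_filter' ex_prime)

theorem rP_le {k : ℕ} (q : ℕ) (a s : Fin k → ℕ) (P : Finset (ℕ × ℕ)) (G : Fin k → Finset ℕ)
    (p : ℕ) : rP q a s P G p ≤ p := by
  classical
  unfold rP
  exact (card_filter_le _ _).trans (by rw [card_range])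

theorem rP_large {k : ℕ} (q : ℕ) (a s : Fin k → ℕ) (P : Finset (ℕ × ℕ)) (G : Fin k → Finset ℕ)
    (p : ℕ) (hp : ¬ p ∣ q) : rP q a s P G p = r2 (P ∪ uc s G) p := by
  classical
  unfold rP r2
  congr 1
  refine filter_congr fun r _ => ?_
  unfold Qp Qc uc
  constructor
  · rintro (⟨z, hz, hd⟩ | ⟨i, h, hh, hn⟩)
    · exact ⟨z, mem_union_left _ hz, hd⟩
    · refine ⟨(s i, h), mem_union_right _
        (mem_biUnion.2 ⟨i, mem_univ _, mem_image.2 ⟨h, hh, rfl⟩⟩), ?_⟩
      by_contra hd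
      exact hn ⟨hd, fun h1 => absurd h1 hp⟩
  · rintro ⟨z, hz, hd⟩
    rcases mem_union.1 hz with hz | hz
    · exact Or.inl ⟨z, hz, hd⟩
    · obtain ⟨i, _, hi⟩ := mem_biUnion.1 hz
      obtain ⟨h, hh, rfl⟩ := mem_image.1 hi
      exact Or.inr ⟨i, h, hh, fun hn => hn.1 hd⟩

theorem facP_nonneg {k : ℕ} (q : ℕ) (a s : Fin k → ℕ) (P : Finset (ℕ × ℕ))
    (G : Fin k → Finset ℕ) {p y : ℕ} (hp : p ∈ pr y) : 0 ≤ (1 - (rP q a s P G p : ℝ) / p) := by
  have h1 : (0 : ℝ) < p := by exact_mod_cast (mem_pr'.1 hp).1.pos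
  have h2 : (rP q a s P G p : ℝ) ≤ p := by exact_mod_cast rP_le q a s P G p
  rw [sub_nonneg, div_le_one h1]
  exact h2

theorem facP_le_one {k : ℕ} (q : ℕ) (a s : Fin k → ℕ) (P : Finset (ℕ × ℕ))
    (G : Fin k → Finset ℕ) (p : ℕ) : (1 - (rP q a s P G p : ℝ) / p) ≤ 1 := by
  have : (0 : ℝ) ≤ (rP q a s P G p : ℝ) / p := by positivity
  linarith

theorem t_SPL3 : S_SPL3 := by
  classical
  intro k q w y a s P G hq hq0 hqw hwy
  refine ⟨?_, ?_, ?_, ?_, ?_⟩
  · unfold DP VT2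
    rw [← prod_filter_mul_prod_filter_not (pr y) (fun p => w < p), pr_filter' hwy, mul_comm]
    congr 1
    refine prod_congr rfl fun p hp => ?_
    rw [mem_filter] at hp
    rw [rP_large q a s P G p (fun hd => by have := Nat.le_of_dvd hq0 hd; omega)]
  · unfold VP VT2
    rw [← prod_filter_mul_prod_filter_not (pr y) (fun p => w < p), pr_filter' hwy, mul_comm]
  · exact prod_nonneg fun p hp => facP_nonneg q a s P G hp
  · exact prod_le_one (fun p hp => facP_nonneg q a s P G hp) fun p _ => facP_le_one q a s P G p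
  · intro i j hsij hij hnd
    rw [Finset.not_disjoint_iff] at hnd
    obtain ⟨h, hi, hj⟩ := hnd
    obtain ⟨p, hp, hpq, hpa⟩ := ex_prime hq hij
    have hpw : p ∈ pr w := mem_pr'.2 ⟨hp, (Nat.le_of_dvd hq0 hpq).trans hqw⟩
    unfold DP
    refine prod_eq_zero hpw ?_
    have hr : rP q a s P G p = p := by
      unfold rP
      rw [filter_true_of_mem, card_range]
      intro r _
      refine Or.inr ?_
      by_cases hc : ((r + s i) ^ 2 + h) % p = a i % p
      · refine ⟨j, h, hj, fun hn => ?_⟩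
        have h2 := hn.2 hpq
        rw [← hsij] at h2
        exact hpa (hc.symm.trans h2)
      · exact ⟨i, h, hi, fun hn => hc (hn.2 hpq)⟩
    rw [hr, div_self (by exact_mod_cast hp.pos.ne'), sub_self]

end Pool.Agent.K1H13.SQB
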